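import Pool.Agent.Helper73.LF.Goals

/-! Packet LF-SUM: the sum of the products, from the counting statement. -/

set_option autoImplicit false

open Finset

namespace Pool.Agent.Helper44.LF

open Pool.Agent.Helper98.Lang Pool.Agent.Helper73.LF

theorem nd_nonneg (t : ℝ) : 0 ≤ nd t := by unfold nd; positivity

theorem nd_le_one (t : ℝ) : nd t ≤ 1 := by
  unfold nd
  have := abs_sub_round t
  linarith

/-- one factor -/
theorem factor_le (B r : ℝ) (J : ℕ) (hB : B ≤ 2 ^ J) (hr1 : r ≤ 1) :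
    min B (1 / r) ≤ ∑ j ∈ range (J + 1), if r ≤ ((1 : ℝ) / 2) ^ j then (2 : ℝ) ^ (j + 1) else 0 := by
  have hnn : ∀ j ∈ range (J + 1),
      0 ≤ (if r ≤ ((1 : ℝ) / 2) ^ j then (2 : ℝ) ^ (j + 1) else 0) := by
    intro j _
    split_ifs <;> positivity
  by_cases hJ : r ≤ ((1 : ℝ) / 2) ^ J
  · calc min B (1 / r) ≤ B := min_le_left _ _
      _ ≤ 2 ^ J := hB
      _ ≤ 2 ^ (J + 1) := pow_le_pow_right₀ (by norm_num) (by omega)
      _ = (if r ≤ ((1 : ℝ) / 2) ^ J then (2 : ℝ) ^ (J + 1) else 0) := by rw [if_pos hJ]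
      _ ≤ _ := single_le_sum hnn (mem_range.mpr (by omega))
  · have hex : ∃ n : ℕ, ¬ r ≤ ((1 : ℝ) / 2) ^ n := ⟨J, hJ⟩
    obtain ⟨n, hn, hmin⟩ : ∃ n : ℕ, ¬ r ≤ ((1 : ℝ) / 2) ^ n ∧
        ∀ k : ℕ, ¬ r ≤ ((1 : ℝ) / 2) ^ k → n ≤ k := by
      classical
      exact ⟨Nat.find hex, Nat.find_spec hex, fun k hk => Nat.find_min' hex hk⟩
    have hnJ : n ≤ J := hmin J hJ
    have hn0 : n ≠ 0 := by
      rintro rfl
      simp only [pow_zero] at hn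
      exact hn hr1
    obtain ⟨j, rfl⟩ := Nat.exists_eq_succ_of_ne_zero hn0
    have hjle : r ≤ ((1 : ℝ) / 2) ^ j := by
      by_contra hcon
      have := hmin j hcon
      omega
    have hr : ((1 : ℝ) / 2) ^ (j + 1) < r := not_le.mp hn
    calc min B (1 / r) ≤ 1 / r := min_le_right _ _
      _ ≤ 1 / ((1 : ℝ) / 2) ^ (j + 1) := one_div_le_one_div_of_le (by positivity) hr.le
      _ = 2 ^ (j + 1) := by rw [one_div_pow, one_div_one_div]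
      _ = (if r ≤ ((1 : ℝ) / 2) ^ j then (2 : ℝ) ^ (j + 1) else 0) := by rw [if_pos hjle]
      _ ≤ _ := single_le_sum hnn (mem_range.mpr (by omega))

theorem sum_of (h : GCnt) : Pool.Agent.Helper73.LF.GSum := by
  intro m x hx δ hδ
  obtain ⟨C1, hC1, hcnt⟩ := h m x hx δ hδ
  obtain ⟨η, hη⟩ : ∃ η : ℝ, η = δ / ((m : ℝ) + 1) := ⟨_, rfl⟩
  have hη0 : 0 < η := by rw [hη]; positivity
  obtain ⟨C3, hC3⟩ : ∃ C3 : ℝ, C3 = 2 + 2 * (3 ^ η / η) := ⟨_, rfl⟩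
  have hC30 : 0 < C3 := by rw [hC3]; positivity
  refine ⟨C1 * 2 ^ m * C3 ^ m, by positivity, ?_⟩
  intro Y H hH
  have hH1 : (1 : ℝ) ≤ H := by exact_mod_cast hH
  have hH0 : (0 : ℝ) < H := by linarith
  obtain ⟨J, hJ⟩ : ∃ J : ℕ, J = Nat.log 2 (2 * H + 1) + 1 := ⟨_, rfl⟩
  have hJ1 : 2 * H + 1 < 2 ^ J := by
    rw [hJ]; exact Nat.lt_pow_succ_log_self (by norm_num) _
  have hJ2 : (2 : ℝ) * H + 1 ≤ 2 ^ J := by exact_mod_cast hJ1.le
  have hJ3 : 2 ^ (J - 1) ≤ 2 * H + 1 := by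
    rw [hJ, Nat.add_sub_cancel]; exact Nat.pow_log_le_self 2 (by omega)
  have hJpos : 1 ≤ J := by rw [hJ]; omega
  -- the bound for `J`
  have hJb : ((J : ℝ) + 1) ≤ C3 * (H : ℝ) ^ η := by
    have h1 : ((2 : ℝ) ^ (J - 1)) ≤ 3 * H := by
      have : ((2 : ℝ) ^ (J - 1)) ≤ 2 * H + 1 := by exact_mod_cast hJ3
      linarith
    have h2 : ((J - 1 : ℕ) : ℝ) * Real.log 2 ≤ Real.log (3 * H) := by
      rw [← Real.log_pow]
      exact Real.log_le_log (by positivity) h1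
    have h3 : Real.log (3 * H) ≤ (3 * (H : ℝ)) ^ η / η := Real.log_le_rpow_div (by positivity) hη0
    have h4 : (3 * (H : ℝ)) ^ η = 3 ^ η * (H : ℝ) ^ η := Real.mul_rpow (by norm_num) hH0.le
    have h5 : ((J - 1 : ℕ) : ℝ) = (J : ℝ) - 1 := by
      rw [Nat.cast_sub hJpos]; simp
    have h6 := Real.log_two_gt_d9
    have h7 : (0 : ℝ) ≤ ((J - 1 : ℕ) : ℝ) := by positivity
    have h8 : ((J - 1 : ℕ) : ℝ) * (1 / 2) ≤ (3 * (H : ℝ)) ^ η / η := by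
      refine le_trans ?_ (le_trans h2 h3)
      exact mul_le_mul_of_nonneg_left (by linarith) h7
    have h9 : (1 : ℝ) ≤ (H : ℝ) ^ η := Real.one_le_rpow hH1 hη0.le
    have h10 : (3 * (H : ℝ)) ^ η / η = (3 ^ η / η) * (H : ℝ) ^ η := by rw [h4]; ring
    rw [h10, h5] at h8
    rw [hC3]
    have h11 : (2 + 2 * (3 ^ η / η)) * (H : ℝ) ^ η
        = 2 * (H : ℝ) ^ η + 2 * ((3 ^ η / η) * (H : ℝ) ^ η) := by ring
    rw [h11]
    linarith
  have hJm : ((J : ℝ) + 1) ^ m ≤ C3 ^ m * (H : ℝ) ^ δ := by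
    calc ((J : ℝ) + 1) ^ m ≤ (C3 * (H : ℝ) ^ η) ^ m := by gcongr
      _ = C3 ^ m * ((H : ℝ) ^ η) ^ m := mul_pow _ _ _
      _ = C3 ^ m * (H : ℝ) ^ (η * m) := by rw [← Real.rpow_natCast ((H : ℝ) ^ η) m, ← Real.rpow_mul hH0.le]
      _ ≤ C3 ^ m * (H : ℝ) ^ δ := by
        refine mul_le_mul_of_nonneg_left ?_ (by positivity)
        refine Real.rpow_le_rpow_of_exponent_le hH1 ?_
        rw [hη, div_mul_eq_mul_div, div_le_iff₀ (by positivity)]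
        nlinarith
  have hP : ∀ y ∈ Icc 1 Y, Pr x H y ≤ ∑ f ∈ Fintype.piFinset (fun _ : Fin m => range (J + 1)),
      ∏ i, (if nd (y * x i) ≤ ((1 : ℝ) / 2) ^ (f i) then (2 : ℝ) ^ (f i + 1) else 0) := by
    intro y _
    unfold Pr
    have hpr := Finset.prod_univ_sum (fun _ : Fin m => range (J + 1))
      (fun i j => if nd (y * x i) ≤ ((1 : ℝ) / 2) ^ j then (2 : ℝ) ^ (j + 1) else 0)
    rw [← hpr]
    refine Finset.prod_le_prod ?_ ?_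
    · intro i _
      exact le_min (by positivity) (div_nonneg zero_le_one (nd_nonneg _))
    · intro i _
      exact factor_le _ _ J hJ2 (nd_le_one _)
  have hin : ∀ f ∈ Fintype.piFinset (fun _ : Fin m => range (J + 1)),
      ∑ y ∈ Icc 1 Y, ∏ i, (if nd (y * x i) ≤ ((1 : ℝ) / 2) ^ (f i) then (2 : ℝ) ^ (f i + 1) else 0)
        ≤ C1 * (Y : ℝ) ^ (1 + δ) * 2 ^ m := by
    intro f _
    have h1 : ∀ y ∈ Icc 1 Y,
        ∏ i, (if nd (y * x i) ≤ ((1 : ℝ) / 2) ^ (f i) then (2 : ℝ) ^ (f i + 1) else 0)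
        ≤ (if ∀ i, nd (y * x i) ≤ ((1 : ℝ) / 2) ^ (f i) then ∏ i, (2 : ℝ) ^ (f i + 1) else 0) := by
      intro y _
      by_cases hc : ∀ i, nd (y * x i) ≤ ((1 : ℝ) / 2) ^ (f i)
      · rw [if_pos hc]
        refine le_of_eq (Finset.prod_congr rfl ?_)
        intro i _
        rw [if_pos (hc i)]
      · rw [if_neg hc]
        push Not at hc
        obtain ⟨i, hi⟩ := hc
        refine le_of_eq (Finset.prod_eq_zero (mem_univ i) ?_)
        rw [if_neg (not_le.mpr hi)]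
    refine le_trans (sum_le_sum h1) ?_
    rw [← Finset.sum_filter, Finset.sum_const, nsmul_eq_mul]
    have h2 := hcnt Y (fun i => ((1 : ℝ) / 2) ^ (f i)) (fun i => by positivity)
      (fun i => pow_le_one₀ (by norm_num) (by norm_num))
      ((Icc 1 Y).filter (fun y : ℕ => ∀ i, nd (y * x i) ≤ ((1 : ℝ) / 2) ^ (f i))) (by
        intro y hy
        rw [mem_filter, mem_Icc] at hy
        exact ⟨hy.1.1, hy.1.2, hy.2⟩)
    have h3 : (∏ i, ((1 : ℝ) / 2) ^ (f i)) * ∏ i, (2 : ℝ) ^ (f i + 1) = 2 ^ m := by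
      rw [← Finset.prod_mul_distrib]
      have : ∀ i ∈ (univ : Finset (Fin m)), ((1 : ℝ) / 2) ^ (f i) * (2 : ℝ) ^ (f i + 1) = 2 := by
        intro i _
        rw [pow_succ, ← mul_assoc, ← mul_pow]
        norm_num
      rw [Finset.prod_congr rfl this]
      simp
    calc (((Icc 1 Y).filter (fun y : ℕ => ∀ i, nd (y * x i) ≤ ((1 : ℝ) / 2) ^ (f i))).card : ℝ)
          * ∏ i, (2 : ℝ) ^ (f i + 1)
        ≤ (C1 * (Y : ℝ) ^ (1 + δ) * ∏ i, ((1 : ℝ) / 2) ^ (f i)) * ∏ i, (2 : ℝ) ^ (f i + 1) :=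
          mul_le_mul_of_nonneg_right h2 (Finset.prod_nonneg fun i _ => by positivity)
      _ = C1 * (Y : ℝ) ^ (1 + δ) *
          ((∏ i, ((1 : ℝ) / 2) ^ (f i)) * ∏ i, (2 : ℝ) ^ (f i + 1)) := by ring
      _ = C1 * (Y : ℝ) ^ (1 + δ) * 2 ^ m := by rw [h3]
  have hcard : ((Fintype.piFinset (fun _ : Fin m => range (J + 1))).card : ℝ) = ((J : ℝ) + 1) ^ m := by
    rw [Fintype.card_piFinset]
    simp
  calc ∑ y ∈ Icc 1 Y, Pr x H y
      ≤ ∑ y ∈ Icc 1 Y, ∑ f ∈ Fintype.piFinset (fun _ : Fin m => range (J + 1)),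
        ∏ i, (if nd (y * x i) ≤ ((1 : ℝ) / 2) ^ (f i) then (2 : ℝ) ^ (f i + 1) else 0) :=
        sum_le_sum hP
    _ = ∑ f ∈ Fintype.piFinset (fun _ : Fin m => range (J + 1)), ∑ y ∈ Icc 1 Y,
        ∏ i, (if nd (y * x i) ≤ ((1 : ℝ) / 2) ^ (f i) then (2 : ℝ) ^ (f i + 1) else 0) :=
        sum_comm
    _ ≤ ∑ _f ∈ Fintype.piFinset (fun _ : Fin m => range (J + 1)),
        C1 * (Y : ℝ) ^ (1 + δ) * 2 ^ m := sum_le_sum hin
    _ = ((J : ℝ) + 1) ^ m * (C1 * (Y : ℝ) ^ (1 + δ) * 2 ^ m) := by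
        rw [Finset.sum_const, nsmul_eq_mul, hcard]
    _ ≤ (C3 ^ m * (H : ℝ) ^ δ) * (C1 * (Y : ℝ) ^ (1 + δ) * 2 ^ m) :=
        mul_le_mul_of_nonneg_right hJm (by positivity)
    _ = C1 * 2 ^ m * C3 ^ m * (Y : ℝ) ^ (1 + δ) * (H : ℝ) ^ δ := by ring

end Pool.Agent.Helper44.LF
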